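import Pool.Agent.Lib.MP_acafa7_al.F.IfaceG
import Pool.Agent.Lib.MP_acafa7_al.MS.H50.FanAux
import Pool.Agent.Lib.MP_acafa7_al.MS.H21.FlipDeg
import Pool.Agent.Lib.MP_acafa7_al.MS.H09.Ang

/-! Module QINB of ff_modules: a flip at an inner spoke with small end sum. -/

namespace MSG.F24

open Classical

variable {D : Type} [Fintype D] {M : DMap D} {R : List D} {ℓ : D → ℝ} {o : D} {k : ℕ} {s : ℕ → D}

theorem md_npc (h : IsMD M R ℓ) :
    ∀ d, (∀ b, M.SameV d b → b ∉ {d | d ∈ R}) → M.curv ℓ {d | d ∈ R} d ≤ 0 :=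
  fun d hd => h.npc d (fun b hb hs => hd b hs hb)

/-- facts on the spokes -/
theorem dspoke (h : IsMD M R ℓ) (hF : DFan M R ℓ o k s) {j : ℕ} (hj : j < k) :
    M.ι (s (j + 1)) = M.φ (M.φ (s j)) ∧ M.φ (M.ι (s (j + 1))) = s j ∧
      M.ι (s (j + 1)) ∉ R := by
  have h1 : M.ι (s (j + 1)) = M.φ (M.φ (s j)) := by
    rw [hF.next j hj, M.ιι]
  have ht : s j ∉ {d | d ∈ R} := hF.tri j hj
  refine ⟨h1, ?_, ?_⟩
  · rw [h1]
    exact (h.off.2 _ ht).1
  · rw [h1]
    exact H50.off3_compl h.off (H50.off3_compl h.off ht)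

/-- two corners at the vertex have a sum less than `π` -/
theorem dtwo_lt (h : IsMD M R ℓ) (hK : DMk M R ℓ o) (hF : DFan M R ℓ o k s) {i j : ℕ}
    (hi : i < k) (hj : j < k) (hij : i ≠ j) : M.th ℓ (s i) + M.th ℓ (s j) < Real.pi := by
  have h1 := hK.curv
  rw [hF.curv] at h1
  have h2 : ∑ m ∈ ({i, j} : Finset ℕ), M.th ℓ (s m) ≤ ∑ m ∈ Finset.range k, M.th ℓ (s m) := by
    refine Finset.sum_le_sum_of_subset_of_nonneg ?_ ?_
    · intro m hm
      simp only [Finset.mem_insert, Finset.mem_singleton] at hm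
      rw [Finset.mem_range]
      rcases hm with rfl | rfl
      · exact hi
      · exact hj
    · intro m hm _
      exact (H50.th_facts H09.ang h.off h.lenok (hF.tri m (Finset.mem_range.1 hm))).1.le
  rw [Finset.sum_pair hij] at h2
  linarith

theorem qinb_st (hQ : QFlipStatement) : QInBStatement := by
  intro D _ M R ℓ o k s h hK hF hloop j hj0 hjk hang
  obtain ⟨j, rfl⟩ : ∃ i, j = i + 1 := ⟨j - 1, by omega⟩
  obtain ⟨e1, e2, hι⟩ := dspoke h hF (j := j) (by omega)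
  obtain ⟨e3, e4, hι2⟩ := dspoke h hF (j := j + 1) (by omega)
  have hs := hF.tri (j + 1) (by omega)
  have hlt := dtwo_lt h hK hF (i := j + 1) (j := j) (by omega) (by omega) (by omega)
  have nj : s j ≠ s (j + 1) := by
    intro h'
    have := hF.inj j (j + 1) (by omega) (by omega) h'
    omega
  have so : M.SameV o (s (j + 1)) := (hF.cls _).2 ⟨j + 1, by omega, rfl⟩
  have l0 := hloop j (by omega)
  have l1 := hloop (j + 1) (by omega)
  have l2 := hloop (j + 2) (by omega)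
  have ht : s (j + 1) ∉ {d | d ∈ R} := hs
  have hιt : M.ι (s (j + 1)) ∉ {d | d ∈ R} := hι
  have n1 : M.ι (s (j + 1)) ≠ M.φ (s (j + 1)) := H50.ne_phi H09.ang h.off h.lenok (md_npc h) ht
  have n2 : M.ι (s (j + 1)) ≠ M.φ (M.φ (s (j + 1))) := by
    intro h'
    rw [h', (h.off.2 _ ht).1] at e2
    exact nj e2.symm
  have a1 : M.th ℓ (s (j + 1)) + M.th ℓ (M.φ (M.ι (s (j + 1)))) < Real.pi := by
    rw [e2]
    exact hlt
  obtain ⟨M', ℓ', hfl, hMD, hsame, harea⟩ := hQ D M R ℓ h (s (j + 1)) hs hι n1 n2 a1 hang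
  have hos : o ≠ s (j + 1) := by
    intro h'
    exact hs (h' ▸ hK.mem)
  have hoι : o ≠ M.ι (s (j + 1)) := by
    intro h'
    exact hι (h' ▸ hK.mem)
  have hns : ∀ b ∈ R, b ≠ s (j + 1) := by
    rintro b hb rfl
    exact hs hb
  have hnι : ∀ b ∈ R, b ≠ M.ι (s (j + 1)) := by
    rintro b hb rfl
    exact hι hb
  have c1 := H50.off3_compl h.off ht
  have c2 := H50.off3_compl h.off c1
  have c3 := H50.off3_compl h.off hιt
  have c4 := H50.off3_compl h.off c3
  have hφ : ∀ b ∈ R, M'.φ b = M.φ b := by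
    intro b hb
    refine hfl.rest b ?_ ?_ ?_ ?_ ?_ ?_
    · exact hns b hb
    · rintro rfl
      exact c1 hb
    · rintro rfl
      exact c2 hb
    · exact hnι b hb
    · rintro rfl
      exact c3 hb
    · rintro rfl
      exact c4 hb
  have hcurv := (hsame o hos hoι).2
  have hdeg := H21.flipdeg D M M' (s (j + 1)) (h.off.2 _ ht) (h.off.2 _ hιt) n1 n2 hfl o hos hoι
  refine ⟨M', ℓ', hMD, ⟨hK.mem, ?_, ?_, ?_⟩, ?_, hcurv, harea, ?_⟩
  · intro b hb hob
    exact hK.uni b hb ((hfl.sv o b hos hoι (hns b hb) (hnι b hb)).1 hob)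
  · rw [hcurv]
    exact hK.curv
  · rw [hφ o hK.mem]
    exact hK.ne
  · exact fun d hd => ⟨(hsame d (hns d hd) (hnι d hd)).1, hφ d hd⟩
  · have o1 : ¬ M.SameV o (M.φ (M.φ (M.ι (s (j + 1))))) := by
      rw [e2]
      intro h'
      exact l0 (M.sameV_trans h' (M.sameV_step (s j)))
    have o2 : ¬ M.SameV o (M.φ (M.φ (s (j + 1)))) := by
      rw [← e3]
      exact l2
    rw [if_pos so, if_neg l1, if_neg o1, if_neg o2] at hdeg
    omega

end MSG.F24
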