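import Pool.Agent.Lib.MP_acafa7_al.F.IfaceC
import Pool.Agent.Lib.MP_acafa7_al.F.H03.Halg

/-! Module TKA of ff_modules: the structure `Tk` except uniqueness. -/

namespace MSG.F24

open Classical

variable {V Y B : Type} {G : SimpleGraph V}

/-! ### Chains -/

theorem sum_kr [Fintype Y] (u : Y) : ∑ R : Y, kr u R = 1 := by
  simp [kr]

/-- determinant of Kronecker symbols -/
noncomputable def det (u v w P Q R : Y) : ℤ :=
  kr u P * (kr v Q * kr w R - kr v R * kr w Q) - kr u Q * (kr v P * kr w R - kr v R * kr w P) +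
      kr u R * (kr v P * kr w Q - kr v Q * kr w P)

theorem om0_apply (c : Y → ℕ) (u v w P Q R : Y) :
    om0 c u v w P Q R = if c P < c Q ∧ c Q < c R then det u v w P Q R else 0 := rfl

theorem kr_mul_zero (c : Y → ℕ) {u v P R : Y} (h : c u ≠ c v) (h' : c P = c R) :
    kr u P * kr v R = 0 := by
  unfold kr
  by_cases h1 : u = P
  · by_cases h2 : v = R
    · exact absurd (by rw [h1, h2, h']) h
    · rw [if_neg h2, mul_zero]
  · rw [if_neg h1, zero_mul]

theorem det_zero_PR (c : Y → ℕ) {u v w P Q R : Y} (h1 : c u ≠ c v) (h2 : c v ≠ c w)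
    (h3 : c u ≠ c w) (h : c P = c R) : det u v w P Q R = 0 := by
  have a1 := kr_mul_zero c h3 h
  have a2 := kr_mul_zero c h1 h
  have a3 := kr_mul_zero c h2 h
  have a4 := kr_mul_zero c h2.symm h
  have a5 := kr_mul_zero c h1.symm h
  have a6 := kr_mul_zero c h3.symm h
  unfold det
  linear_combination kr v Q * a1 - kr w Q * a2 - kr u Q * a3 + kr u Q * a4 + kr w Q * a5 -
    kr v Q * a6

theorem det_zero_QR (c : Y → ℕ) {u v w P Q R : Y} (h1 : c u ≠ c v) (h2 : c v ≠ c w)
    (h3 : c u ≠ c w) (h : c Q = c R) : det u v w P Q R = 0 := by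
  have a1 := kr_mul_zero c h3 h
  have a2 := kr_mul_zero c h1 h
  have a3 := kr_mul_zero c h2 h
  have a4 := kr_mul_zero c h2.symm h
  have a5 := kr_mul_zero c h1.symm h
  have a6 := kr_mul_zero c h3.symm h
  unfold det
  linear_combination kr u P * a3 - kr u P * a4 - kr v P * a1 + kr w P * a2 + kr v P * a6 -
    kr w P * a5

theorem det_swap (u v w P Q R : Y) : det u v w P R Q = - det u v w P Q R := by
  unfold det
  ring

theorem det_cyc (u v w P Q R : Y) : det u v w R P Q = det u v w P Q R := by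
  unfold det
  ring

theorem sum_det [Fintype Y] (u v w P Q : Y) : ∑ R : Y, det u v w P Q R =
    (kr u P * kr v Q - kr u Q * kr v P) + (kr v P * kr w Q - kr v Q * kr w P) -
      (kr u P * kr w Q - kr u Q * kr w P) := by
  have e : ∀ R : Y, det u v w P Q R = (kr u P * kr v Q - kr u Q * kr v P) * kr w R +
      (kr v P * kr w Q - kr v Q * kr w P) * kr u R -
      (kr u P * kr w Q - kr u Q * kr w P) * kr v R := by
    intro R
    unfold det
    ring
  rw [Finset.sum_congr rfl (fun R _ => e R), Finset.sum_sub_distrib, Finset.sum_add_distrib,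
    ← Finset.mul_sum, ← Finset.mul_sum, ← Finset.mul_sum, sum_kr, sum_kr, sum_kr]
  ring

theorem bd2_om0 [Fintype Y] (c : Y → ℕ) {u v w : Y} (h1 : c u ≠ c v) (h2 : c v ≠ c w)
    (h3 : c u ≠ c w) : bd2 c (om0 c u v w) = ed0 c u v + ed0 c v w - ed0 c u w := by
  funext P Q
  simp only [Pi.add_apply, Pi.sub_apply]
  unfold bd2 ed0
  by_cases h : c P < c Q
  · rw [if_pos h, if_pos h, if_pos h, if_pos h, ← sum_det]
    refine Finset.sum_congr rfl (fun R _ => ?_)
    rw [om0_apply, om0_apply, om0_apply]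
    rcases lt_trichotomy (c R) (c P) with h4 | h4 | h4
    · rw [if_neg (by omega), if_neg (by omega), if_pos (by omega), det_cyc]
      ring
    · rw [if_neg (by omega), if_neg (by omega), if_neg (by omega),
        det_zero_PR c h1 h2 h3 h4.symm]
      ring
    · rcases lt_trichotomy (c R) (c Q) with h5 | h5 | h5
      · rw [if_neg (by omega), if_pos (by omega), if_neg (by omega), det_swap]
        ring
      · rw [if_neg (by omega), if_neg (by omega), if_neg (by omega),
          det_zero_QR c h1 h2 h3 h5.symm]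
        ring
      · rw [if_pos (by omega), if_neg (by omega), if_neg (by omega)]
        ring
  · rw [if_neg h, if_neg h, if_neg h, if_neg h]
    ring

theorem om0_12 (c : Y → ℕ) (u w : Y) : om0 c u u w = 0 := by
  funext P Q R
  rw [om0_apply]
  have : det u u w P Q R = 0 := by unfold det; ring
  rw [this]
  simp

theorem om0_13 (c : Y → ℕ) (u w : Y) : om0 c u w u = 0 := by
  funext P Q R
  rw [om0_apply]
  have : det u w u P Q R = 0 := by unfold det; ring
  rw [this]
  simp

theorem om0_23 (c : Y → ℕ) (u w : Y) : om0 c w u u = 0 := by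
  funext P Q R
  rw [om0_apply]
  have : det w u u P Q R = 0 := by unfold det; ring
  rw [this]
  simp

theorem ed0_anti (c : Y → ℕ) (u v : Y) : ed0 c v u = - ed0 c u v := by
  funext P Q
  simp only [Pi.neg_apply]
  unfold ed0
  by_cases h : c P < c Q
  · rw [if_pos h, if_pos h]
    ring
  · rw [if_neg h, if_neg h]
    ring

theorem ed0_self (c : Y → ℕ) (u : Y) : ed0 c u u = 0 := by
  funext P Q
  unfold ed0
  by_cases h : c P < c Q
  · rw [if_pos h]
    simp only [Pi.zero_apply]
    ring
  · rw [if_neg h]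
    rfl

theorem bd2_zero [Fintype Y] (c : Y → ℕ) : bd2 c (0 : Ch2 Y) = 0 := by
  funext P Q
  unfold bd2
  simp

theorem bd2_add [Fintype Y] (c : Y → ℕ) (N N' : Ch2 Y) : bd2 c (N + N') = bd2 c N + bd2 c N' := by
  funext P Q
  simp only [Pi.add_apply]
  unfold bd2
  by_cases h : c P < c Q
  · rw [if_pos h, if_pos h, if_pos h, ← Finset.sum_add_distrib]
    refine Finset.sum_congr rfl (fun R _ => ?_)
    simp only [Pi.add_apply]
    ring
  · rw [if_neg h, if_neg h, if_neg h]
    ring

/-- the boundary as a homomorphism -/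
noncomputable def bd2H [Fintype Y] (c : Y → ℕ) : Ch2 Y →+ Ch1 Y where
  toFun := bd2 c
  map_zero' := bd2_zero c
  map_add' := bd2_add c

theorem bd2_om [Group B] [MulAction B V] [Fintype Y] [MulAction B Y] {S : Set V} {π : V → Y}
    {c : Y → ℕ} (hC : CM G B S π c) {x y z : V} (hx : x ∈ S) (hy : y ∈ S) (hz : z ∈ S)
    (hxy : G.Adj x y) (hyz : G.Adj y z) (hxz : G.Adj x z) :
    bd2 c (om π c x y z) = ed0 c (π x) (π y) + ed0 c (π y) (π z) - ed0 c (π x) (π z) := by
  unfold om
  rcases hC.adj x hx y hy hxy with h1 | h1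
  · rw [h1, om0_12, bd2_zero, ed0_self]
    abel
  · rcases hC.adj y hy z hz hyz with h2 | h2
    · rw [h2, om0_23, bd2_zero, ed0_self]
      abel
    · rcases hC.adj x hx z hz hxz with h3 | h3
      · rw [h3, om0_13, bd2_zero, ed0_self, ed0_anti c (π z) (π y)]
        abel
      · exact bd2_om0 c h1 h2 h3

theorem sE_edw (π : V → Y) (c : Y → ℕ) (l : List V) :
    MSZ.sE (fun x y => ed0 c (π x) (π y)) l = edw π c l := by
  induction l with
  | nil => rfl
  | cons a l ih =>
    cases l with
    | nil => rfl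
    | cons b l =>
      rw [MSZ.sE_cc, ih]
      rfl

/-! ### supports -/

theorem inc2_zero (c : Y → ℕ) : Inc2 c (0 : Ch2 Y) := fun _ _ _ _ => rfl

theorem inc2_add {c : Y → ℕ} {N N' : Ch2 Y} (h : Inc2 c N) (h' : Inc2 c N') :
    Inc2 c (N + N') := by
  intro P Q R hP
  simp only [Pi.add_apply]
  rw [h P Q R hP, h' P Q R hP, add_zero]

theorem inc2_neg {c : Y → ℕ} {N : Ch2 Y} (h : Inc2 c N) : Inc2 c (-N) := by
  intro P Q R hP
  simp only [Pi.neg_apply]
  rw [h P Q R hP, neg_zero]

theorem inc2_om0 (c : Y → ℕ) (u v w : Y) : Inc2 c (om0 c u v w) := by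
  intro P Q R hP
  rw [om0_apply, if_neg hP]

theorem inc1_add {c : Y → ℕ} {N N' : Ch1 Y} (h : Inc1 c N) (h' : Inc1 c N') :
    Inc1 c (N + N') := by
  intro P Q hP
  simp only [Pi.add_apply]
  rw [h P Q hP, h' P Q hP, add_zero]

theorem inc1_ed0 (c : Y → ℕ) (u v : Y) : Inc1 c (ed0 c u v) := by
  intro P Q hP
  unfold ed0
  rw [if_neg hP]

theorem inc1_edw (π : V → Y) (c : Y → ℕ) (l : List V) : Inc1 c (edw π c l) := by
  induction l with
  | nil => exact fun _ _ _ => rfl
  | cons a l ih =>
    cases l with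
    | nil => exact fun _ _ _ => rfl
    | cons b l => exact inc1_add (inc1_ed0 c _ _) ih

theorem inc2_hom {S : Set V} {π : V → Y} {c : Y → ℕ} {l l' : List V} {e : Ch2 Y}
    (h : HomA G S (om π c) l l' e) : Inc2 c e := by
  induction h with
  | refl l => exact inc2_zero c
  | step s _ ih =>
    refine inc2_add ?_ ih
    cases s with
    | ins u v x y _ _ => exact inc2_zero c
    | del u v x y _ => exact inc2_zero c
    | exp u v x y z _ _ _ _ => exact inc2_neg (inc2_om0 c _ _ _)
    | con u v x y z _ _ _ => exact inc2_om0 c _ _ _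

theorem kr_ne {u P : Y} (h : kr u P ≠ 0) : u = P := by
  by_contra h'
  exact h (if_neg h')

theorem det_ne {u v w P Q R : Y} (h : det u v w P Q R ≠ 0) :
    (u = P ∧ v = Q ∧ w = R) ∨ (u = P ∧ v = R ∧ w = Q) ∨ (u = Q ∧ v = P ∧ w = R) ∨
      (u = Q ∧ v = R ∧ w = P) ∨ (u = R ∧ v = P ∧ w = Q) ∨ (u = R ∧ v = Q ∧ w = P) := by
  by_contra hc
  push_neg at hc
  obtain ⟨a1, a2, a3, a4, a5, a6⟩ := hc
  have key : ∀ (P' Q' R' : Y), (u = P' → v = Q' → w ≠ R') → kr u P' * kr v Q' * kr w R' = 0 := by
    intro P' Q' R' hh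
    by_contra h0
    have b1 : kr u P' ≠ 0 := fun h1 => h0 (by rw [h1]; ring)
    have b2 : kr v Q' ≠ 0 := fun h1 => h0 (by rw [h1]; ring)
    have b3 : kr w R' ≠ 0 := fun h1 => h0 (by rw [h1]; ring)
    exact hh (kr_ne b1) (kr_ne b2) (kr_ne b3)
  have c1 := key P Q R a1
  have c2 := key P R Q a2
  have c3 := key Q P R a3
  have c4 := key Q R P a4
  have c5 := key R P Q a5
  have c6 := key R Q P a6
  apply h
  unfold det
  linear_combination c1 - c2 - c3 + c4 + c5 - c6

theorem om_supp {S' : Set V} {π : V → Y} {c : Y → ℕ} {x y z : V} (hx : x ∈ S') (hy : y ∈ S')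
    (hz : z ∈ S') (hxy : G.Adj x y) (hyz : G.Adj y z) (hxz : G.Adj x z) {P Q R : Y}
    (h : om π c x y z P Q R ≠ 0) : ∃ x ∈ S', ∃ y ∈ S', ∃ z ∈ S', G.Adj x y ∧ G.Adj y z ∧
      G.Adj x z ∧ π x = P ∧ π y = Q ∧ π z = R := by
  have hd : det (π x) (π y) (π z) P Q R ≠ 0 := by
    intro h0
    apply h
    unfold om
    rw [om0_apply, h0]
    simp
  rcases det_ne hd with ⟨h1, h2, h3⟩ | ⟨h1, h2, h3⟩ | ⟨h1, h2, h3⟩ | ⟨h1, h2, h3⟩ |
    ⟨h1, h2, h3⟩ | ⟨h1, h2, h3⟩
  · exact ⟨x, hx, y, hy, z, hz, hxy, hyz, hxz, h1, h2, h3⟩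
  · exact ⟨x, hx, z, hz, y, hy, hxz, hyz.symm, hxy, h1, h3, h2⟩
  · exact ⟨y, hy, x, hx, z, hz, hxy.symm, hxz, hyz, h2, h1, h3⟩
  · exact ⟨z, hz, x, hx, y, hy, hxz.symm, hxy, hyz.symm, h3, h1, h2⟩
  · exact ⟨y, hy, z, hz, x, hx, hyz, hxz.symm, hxy.symm, h2, h3, h1⟩
  · exact ⟨z, hz, y, hy, x, hx, hyz.symm, hxy.symm, hxz.symm, h3, h2, h1⟩

/-- the vertices after a step -/
theorem stp_mem {A : Type} [AddCommGroup A] {S' : Set V} {ω : V → V → V → A} {l l' : List V}
    {e : A} (h : StpA G S' ω l l' e) (hl : ∀ v ∈ l, v ∈ S') : ∀ v ∈ l', v ∈ S' := by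
  cases h with
  | ins u v x y _ hy =>
    intro w hw
    simp only [List.mem_append, List.mem_cons] at hw hl
    rcases hw with hw | hw | hw | hw | hw
    · exact hl w (Or.inl hw)
    · exact hl w (Or.inr (Or.inl hw))
    · rw [hw]; exact hy
    · exact hl w (Or.inr (Or.inl hw))
    · exact hl w (Or.inr (Or.inr hw))
  | del u v x y _ =>
    intro w hw
    simp only [List.mem_append, List.mem_cons] at hw hl
    rcases hw with hw | hw | hw
    · exact hl w (Or.inl hw)
    · exact hl w (Or.inr (Or.inl hw))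
    · exact hl w (Or.inr (Or.inr (Or.inr (Or.inr hw))))
  | exp u v x y z _ _ _ hy =>
    intro w hw
    simp only [List.mem_append, List.mem_cons] at hw hl
    rcases hw with hw | hw | hw | hw | hw
    · exact hl w (Or.inl hw)
    · exact hl w (Or.inr (Or.inl hw))
    · rw [hw]; exact hy
    · exact hl w (Or.inr (Or.inr (Or.inl hw)))
    · exact hl w (Or.inr (Or.inr (Or.inr hw)))
  | con u v x y z _ _ _ =>
    intro w hw
    simp only [List.mem_append, List.mem_cons] at hw hl
    rcases hw with hw | hw | hw | hw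
    · exact hl w (Or.inl hw)
    · exact hl w (Or.inr (Or.inl hw))
    · exact hl w (Or.inr (Or.inr (Or.inr (Or.inl hw))))
    · exact hl w (Or.inr (Or.inr (Or.inr (Or.inr hw))))

theorem supp_hom {S' : Set V} {π : V → Y} {c : Y → ℕ} {l l' : List V} {e : Ch2 Y}
    (h : HomA G S' (om π c) l l' e) : (∀ v ∈ l, v ∈ S') → ∀ P Q R, e P Q R ≠ 0 →
      ∃ x ∈ S', ∃ y ∈ S', ∃ z ∈ S', G.Adj x y ∧ G.Adj y z ∧ G.Adj x z ∧
      π x = P ∧ π y = Q ∧ π z = R := by
  induction h with
  | refl l => exact fun _ P Q R h => absurd rfl h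
  | @step l l' l'' e e' s _ ih =>
    intro hl P Q R hne
    by_cases h0 : e' P Q R = 0
    · have h1 : e P Q R ≠ 0 := by
        intro h2
        apply hne
        simp only [Pi.add_apply]
        rw [h2, h0, add_zero]
      cases s with
      | ins u v x y _ _ => exact absurd rfl h1
      | del u v x y _ => exact absurd rfl h1
      | exp u v x y z hxy hyz hxz hy =>
        refine om_supp (hl x (by simp)) hy (hl z (by simp)) hxy hyz hxz (c := c) ?_
        intro h2
        apply h1
        simp only [Pi.neg_apply]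
        rw [h2, neg_zero]
      | con u v x y z hxy hyz hxz =>
        exact om_supp (hl x (by simp)) (hl y (by simp)) (hl z (by simp)) hxy hyz hxz (c := c) h1
    · exact ih (stp_mem s hl) P Q R h0

theorem suppe_aux (π : V → Y) (c : Y → ℕ) (l : List V) : l.IsChain G.Adj → ∀ P Q,
    edw π c l P Q ≠ 0 → ∃ u ∈ l, ∃ v ∈ l, G.Adj u v ∧ π u = P ∧ π v = Q := by
  induction l with
  | nil => exact fun _ P Q h => absurd rfl h
  | cons a l ih =>
    cases l with
    | nil => exact fun _ P Q h => absurd rfl h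
    | cons b l =>
      intro hc P Q hne
      rw [List.isChain_cons_cons] at hc
      by_cases h0 : edw π c (b :: l) P Q = 0
      · have h1 : ed0 c (π a) (π b) P Q ≠ 0 := by
          intro h2
          apply hne
          change (ed0 c (π a) (π b) + edw π c (b :: l)) P Q = 0
          simp only [Pi.add_apply]
          rw [h2, h0, add_zero]
        unfold ed0 at h1
        by_cases h3 : c P < c Q
        · rw [if_pos h3] at h1
          by_cases h4 : kr (π a) P * kr (π b) Q = 0
          · have h5 : kr (π a) Q * kr (π b) P ≠ 0 := by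
              intro h6
              apply h1
              rw [h4, h6, sub_zero]
            refine ⟨b, by simp, a, by simp, hc.1.symm, kr_ne (right_ne_zero_of_mul h5),
              kr_ne (left_ne_zero_of_mul h5)⟩
          · exact ⟨a, by simp, b, by simp, hc.1, kr_ne (left_ne_zero_of_mul h4),
              kr_ne (right_ne_zero_of_mul h4)⟩
        · rw [if_neg h3] at h1
          exact absurd rfl h1
      · obtain ⟨u, hu, v, hv, h1, h2, h3⟩ := ih hc.2 P Q h0
        exact ⟨u, List.mem_cons_of_mem _ hu, v, List.mem_cons_of_mem _ hv, h1, h2, h3⟩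

/-! ### boundaries of walks -/

theorem bd1_zero [Fintype Y] : bd1 (0 : Ch1 Y) = 0 := by
  funext P
  unfold bd1
  simp

theorem bd1_add [Fintype Y] (N N' : Ch1 Y) : bd1 (N + N') = bd1 N + bd1 N' := by
  funext P
  simp only [Pi.add_apply]
  unfold bd1
  rw [← Finset.sum_add_distrib]
  refine Finset.sum_congr rfl (fun R _ => ?_)
  simp only [Pi.add_apply]
  ring

theorem bd1_neg [Fintype Y] (N : Ch1 Y) : bd1 (-N) = - bd1 N := by
  funext P
  simp only [Pi.neg_apply]
  unfold bd1
  rw [← Finset.sum_neg_distrib]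
  refine Finset.sum_congr rfl (fun R _ => ?_)
  simp only [Pi.neg_apply]
  ring

theorem bd1_ed0_lt [Fintype Y] (c : Y → ℕ) {u v : Y} (h : c u < c v) (P : Y) :
    bd1 (ed0 c u v) P = kr v P - kr u P := by
  have e : ∀ A B' : Y, ed0 c u v A B' = kr u A * kr v B' := by
    intro A B'
    unfold ed0
    by_cases h1 : c A < c B'
    · rw [if_pos h1]
      have : kr u B' * kr v A = 0 := by
        by_contra h2
        have h3 := kr_ne (left_ne_zero_of_mul h2)
        have h4 := kr_ne (right_ne_zero_of_mul h2)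
        subst h3 h4
        omega
      rw [this, sub_zero]
    · rw [if_neg h1]
      symm
      by_contra h2
      have h3 := kr_ne (left_ne_zero_of_mul h2)
      have h4 := kr_ne (right_ne_zero_of_mul h2)
      subst h3 h4
      omega
  unfold bd1
  have e2 : ∀ Q : Y, ed0 c u v Q P - ed0 c u v P Q = kr v P * kr u Q - kr u P * kr v Q := by
    intro Q
    rw [e, e]
    ring
  rw [Finset.sum_congr rfl (fun Q _ => e2 Q), Finset.sum_sub_distrib, ← Finset.mul_sum,
    ← Finset.mul_sum, sum_kr, sum_kr]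
  ring

theorem bd1_ed0 [Fintype Y] (c : Y → ℕ) {u v : Y} (h : u = v ∨ c u ≠ c v) (P : Y) :
    bd1 (ed0 c u v) P = kr v P - kr u P := by
  rcases h with h | h
  · subst h
    rw [ed0_self, bd1_zero]
    simp
  · rcases Nat.lt_or_gt_of_ne h with h | h
    · exact bd1_ed0_lt c h P
    · rw [ed0_anti c v u, bd1_neg]
      simp only [Pi.neg_apply]
      rw [bd1_ed0_lt c h P]
      ring

theorem bd1_edw [Group B] [MulAction B V] [Fintype Y] [MulAction B Y] {S : Set V} {π : V → Y}
    {c : Y → ℕ} (hC : CM G B S π c) (l : List V) : ∀ x y, IsW G x y l → (∀ v ∈ l, v ∈ S) →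
    bd1 (edw π c l) = fun P => kr (π y) P - kr (π x) P := by
  induction l with
  | nil =>
    intro x y h
    have := h.first
    simp at this
  | cons a l ih =>
    intro x y h hl
    have hx : a = x := by simpa using h.first
    subst hx
    cases l with
    | nil =>
      have hy : a = y := by simpa using h.last
      subst hy
      funext P
      change bd1 (0 : Ch1 Y) P = _
      rw [bd1_zero]
      simp
    | cons b l =>
      have hc := h.chain
      rw [List.isChain_cons_cons] at hc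
      have hw' : IsW G b y (b :: l) := by
        refine ⟨hc.2, rfl, ?_⟩
        have := h.last
        rwa [List.getLast?_cons_cons] at this
      have h1 := ih b y hw' (fun v hv => hl v (List.mem_cons_of_mem _ hv))
      have h2 := hC.adj a (hl a (by simp)) b (hl b (by simp)) hc.1
      funext P
      change bd1 (ed0 c (π a) (π b) + edw π c (b :: l)) P = _
      rw [bd1_add, h1]
      simp only [Pi.add_apply]
      rw [bd1_ed0 c h2]
      ring

/-! ### equivariance -/

theorem kr_smul [Group B] [MulAction B Y] (b : B) (u P : Y) :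
    kr (b • u) P = kr u (b⁻¹ • P) := by
  unfold kr
  by_cases h : b • u = P
  · rw [if_pos h, if_pos (by rw [← h, inv_smul_smul])]
  · rw [if_neg h, if_neg]
    intro h'
    apply h
    rw [h', smul_inv_smul]

theorem ac2_add [Group B] [MulAction B Y] (b : B) (N N' : Ch2 Y) :
    ac2 b (N + N') = ac2 b N + ac2 b N' := rfl

theorem ac2_zero [Group B] [MulAction B Y] (b : B) : ac2 b (0 : Ch2 Y) = 0 := rfl

theorem ac2_neg [Group B] [MulAction B Y] (b : B) (N : Ch2 Y) : ac2 b (-N) = - ac2 b N := rfl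

theorem ac1_add [Group B] [MulAction B Y] (b : B) (N N' : Ch1 Y) :
    ac1 b (N + N') = ac1 b N + ac1 b N' := rfl

theorem om_eqv [Group B] [MulAction B V] [MulAction B Y] {S : Set V} {π : V → Y}
    {c : Y → ℕ} (hC : CM G B S π c) (b : B) {x y z : V} (hx : x ∈ S) (hy : y ∈ S) (hz : z ∈ S) :
    om π c (b • x) (b • y) (b • z) = ac2 b (om π c x y z) := by
  funext P Q R
  unfold om ac2 om0
  rw [hC.eqv b x hx, hC.eqv b y hy, hC.eqv b z hz, hC.col b⁻¹ P, hC.col b⁻¹ Q, hC.col b⁻¹ R]
  simp only [kr_smul]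

theorem ed_eqv [Group B] [MulAction B V] [MulAction B Y] {S : Set V} {π : V → Y}
    {c : Y → ℕ} (hC : CM G B S π c) (b : B) {x y : V} (hx : x ∈ S) (hy : y ∈ S) :
    ed0 c (π (b • x)) (π (b • y)) = ac1 b (ed0 c (π x) (π y)) := by
  funext P Q
  unfold ac1 ed0
  rw [hC.eqv b x hx, hC.eqv b y hy, hC.col b⁻¹ P, hC.col b⁻¹ Q]
  simp only [kr_smul]

theorem edw_eqv [Group B] [MulAction B V] [MulAction B Y] {S : Set V} {π : V → Y}
    {c : Y → ℕ} (hC : CM G B S π c) (b : B) (l : List V) : (∀ v ∈ l, v ∈ S) →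
    edw π c (l.map (b • ·)) = ac1 b (edw π c l) := by
  induction l with
  | nil => exact fun _ => rfl
  | cons x l ih =>
    cases l with
    | nil => exact fun _ => rfl
    | cons y l =>
      intro hl
      change ed0 c (π (b • x)) (π (b • y)) + edw π c ((y :: l).map (b • ·)) =
        ac1 b (ed0 c (π x) (π y) + edw π c (y :: l))
      rw [ih (fun v hv => hl v (List.mem_cons_of_mem _ hv)), ac1_add,
        ed_eqv hC b (hl x (by simp)) (hl y (by simp))]

theorem hom_eqv [Group B] [MulAction B V] [MulAction B Y] (hA : Aut G B) {S : Set V} {π : V → Y}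
    {c : Y → ℕ} (hC : CM G B S π c) (b : B) {S' : Set V} (hS : S' ⊆ S) {l l' : List V}
    {e : Ch2 Y} (h : HomA G S' (om π c) l l' e) : (∀ v ∈ l, v ∈ S') →
    HomA G {v | b⁻¹ • v ∈ S'} (om π c) (l.map (b • ·)) (l'.map (b • ·)) (ac2 b e) := by
  induction h with
  | refl l => exact fun _ => HomA.refl _
  | @step l l' l'' e e' s _ ih =>
    intro hl
    rw [ac2_add]
    refine HomA.step ?_ (ih (stp_mem s hl))
    have hb : ∀ y : V, y ∈ S' → b • y ∈ {v : V | b⁻¹ • v ∈ S'} := by
      intro y hy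
      simpa using hy
    cases s with
    | ins u v x y hxy hy =>
      have := StpA.ins (G := G) (S := {v | b⁻¹ • v ∈ S'}) (ω := om π c) (u.map (b • ·))
        (v.map (b • ·)) (b • x) (b • y) ((hA b x y).2 hxy) (hb y hy)
      rw [ac2_zero]
      simpa using this
    | del u v x y hxy =>
      have := StpA.del (G := G) (S := {v | b⁻¹ • v ∈ S'}) (ω := om π c) (u.map (b • ·))
        (v.map (b • ·)) (b • x) (b • y) ((hA b x y).2 hxy)
      rw [ac2_zero]
      simpa using this
    | exp u v x y z hxy hyz hxz hy =>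
      have := StpA.exp (G := G) (S := {v | b⁻¹ • v ∈ S'}) (ω := om π c) (u.map (b • ·))
        (v.map (b • ·)) (b • x) (b • y) (b • z) ((hA b x y).2 hxy) ((hA b y z).2 hyz)
        ((hA b x z).2 hxz) (hb y hy)
      rw [om_eqv hC b (hS (hl x (by simp))) (hS hy) (hS (hl z (by simp)))] at this
      rw [ac2_neg]
      simpa using this
    | con u v x y z hxy hyz hxz =>
      have := StpA.con (G := G) (S := {v | b⁻¹ • v ∈ S'}) (ω := om π c) (u.map (b • ·))
        (v.map (b • ·)) (b • x) (b • y) (b • z) ((hA b x y).2 hxy) ((hA b y z).2 hyz)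
        ((hA b x z).2 hxz)
      rw [om_eqv hC b (hS (hl x (by simp))) (hS (hl y (by simp))) (hS (hl z (by simp)))] at this
      simpa using this

/-! ### fibres -/

theorem fib_hom {U : Set V} {π : V → Y} {c : Y → ℕ} (hU : ∀ x ∈ U, ∀ y ∈ U, π x = π y)
    {l l' : List V} {e : Ch2 Y} (h : HomA G U (om π c) l l' e) : (∀ v ∈ l, v ∈ U) → e = 0 := by
  induction h with
  | refl l => exact fun _ => rfl
  | @step l l' l'' e e' s _ ih =>
    intro hl
    rw [ih (stp_mem s hl), add_zero]
    cases s with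
    | ins u v x y _ _ => rfl
    | del u v x y _ => rfl
    | exp u v x y z _ _ _ hy =>
      unfold om
      rw [hU x (hl x (by simp)) y hy, om0_12, neg_zero]
    | con u v x y z _ _ _ =>
      unfold om
      rw [hU x (hl x (by simp)) y (hl y (by simp)), om0_12]

theorem fib_edw {U : Set V} {π : V → Y} {c : Y → ℕ} (hU : ∀ x ∈ U, ∀ y ∈ U, π x = π y)
    (l : List V) : (∀ v ∈ l, v ∈ U) → edw π c l = 0 := by
  induction l with
  | nil => exact fun _ => rfl
  | cons x l ih =>
    cases l with
    | nil => exact fun _ => rfl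
    | cons y l =>
      intro hl
      change ed0 c (π x) (π y) + edw π c (y :: l) = 0
      rw [ih (fun v hv => hl v (List.mem_cons_of_mem _ hv)),
        hU x (hl x (by simp)) y (hl y (by simp)), ed0_self, add_zero]

theorem edw_cat (π : V → Y) (c : Y → ℕ) {x y z : V} {l m : List V} (hl : IsW G x y l)
    (hm : IsW G y z m) : edw π c (cat l m) = edw π c l + edw π c m := by
  have e1 := F03.isW_snoc hl
  have e2 := F03.isW_cons hm
  have e3 : cat l m = l.dropLast ++ y :: m.tail := by
    unfold cat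
    conv_lhs => rw [e1]
    simp
  rw [← sE_edw, ← sE_edw, ← sE_edw, e3, MSZ.sE_app, ← e1, ← e2]

theorem tka_st (hH : HAlgStatement) : TkAStatement := by
  intro V G B _ _ hA S Y _ _ π c hC hu
  refine ⟨?_, hu, ?_, ?_, ?_, ?_, ?_, ?_, ?_, ?_, ?_⟩
  · intro S' _ l l' h
    exact (hH V ℤ G S' (fun _ _ _ => 0)).2.2.2.1 l l' 0 (Ch2 Y) (om π c) h
  · intro x y l l' e hw hl h
    refine ⟨?_, inc2_hom h⟩
    have h1 := (hH V (Ch2 Y) G S (om π c)).2.2.2.2.2.2.2.2.2.1 (Ch1 Y) (bd2H c) l l' e h
    have h2 := (MSZ.hom_exact (L := S) (η := fun x y => ed0 c (π x) (π y))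
      (fun x y => ed0_anti c (π x) (π y))
      (fun x y z hx hy hz hxy hyz hxz => bd2_om hC hx hy hz hxy hyz hxz) hl (F03.hom_to h1)).2
    rw [sE_edw, sE_edw] at h2
    exact h2
  · exact fun x y l hw hl => ⟨inc1_edw π c l, bd1_edw hC l x y hw hl⟩
  · exact fun b S' hS l l' e hl h => hom_eqv hA hC b hS h hl
  · exact fun b l hl => edw_eqv hC b l hl
  · exact fun x y z l m hl hm => edw_cat π c hl hm
  · exact fun S' _ l l' e hl h => supp_hom h hl
  · exact fun x y l hw => suppe_aux π c l hw.chain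
  · exact fun U _ hU l l' e hl h => fib_hom hU h hl
  · exact fun U _ hU l hl => fib_edw hU l hl

end MSG.F24
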